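import Mathlib

set_option autoImplicit false

/-!
# Asymptotics of the second order term
-/

namespace Pool.Agent.N906.RS

open Filter Topology

theorem lin_atTop {d : ℝ} (c : ℝ) (hd : 0 < d) : Tendsto (fun b : ℝ => d * b - c) atTop atTop :=
  tendsto_atTop_add_const_right _ (-c) (tendsto_id.const_mul_atTop hd)

theorem log_ratio {d : ℝ} (c : ℝ) (hd : 0 < d) :
    Tendsto (fun b : ℝ => Real.log (d * b - c) / Real.log b) atTop (𝓝 1) := by
  have h1 : Tendsto (fun b : ℝ => d - c / b) atTop (𝓝 d) := by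
    have : Tendsto (fun b : ℝ => c / b) atTop (𝓝 0) := tendsto_const_nhds.div_atTop tendsto_id
    simpa using tendsto_const_nhds.sub this
  have h2 : Tendsto (fun b : ℝ => Real.log (d - c / b)) atTop (𝓝 (Real.log d)) :=
    (Real.continuousAt_log hd.ne').tendsto.comp h1
  have h3 : Tendsto (fun b : ℝ => Real.log (d - c / b) / Real.log b) atTop (𝓝 0) :=
    h2.div_atTop Real.tendsto_log_atTop
  have h4 : Tendsto (fun b : ℝ => 1 + Real.log (d - c / b) / Real.log b) atTop (𝓝 1) := by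
    simpa using h3.const_add 1
  refine h4.congr' ?_
  filter_upwards [eventually_gt_atTop (1 : ℝ), (lin_atTop c hd).eventually_gt_atTop 0] with b hb hb2
  have hb0 : 0 < b := by linarith
  have hl : 0 < Real.log b := Real.log_pos hb
  have e : d * b - c = b * (d - c / b) := by field_simp
  have hp : 0 < d - c / b := by
    rw [e] at hb2
    exact (pos_iff_pos_of_mul_pos hb2).1 hb0
  rw [e, Real.log_mul hb0.ne' hp.ne', add_div, div_self hl.ne']

/-- the ratio of the second order terms -/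
theorem ratio {k d : ℝ} (c : ℝ) (hd : 0 < d) :
    Tendsto (fun b : ℝ => √(24 * k * (d * b - c) / Real.log (d * b - c)) / √(b / Real.log b)) atTop
      (𝓝 √(24 * k * d)) := by
  have h1 : Tendsto (fun b : ℝ => (d * b - c) / b) atTop (𝓝 d) := by
    have h : Tendsto (fun b : ℝ => c / b) atTop (𝓝 0) := tendsto_const_nhds.div_atTop tendsto_id
    have h2 : Tendsto (fun b : ℝ => d - c / b) atTop (𝓝 d) := by
      simpa using tendsto_const_nhds.sub h
    refine h2.congr' ?_
    filter_upwards [eventually_gt_atTop (0 : ℝ)] with b hb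
    field_simp
  have h2 : Tendsto (fun b : ℝ => 24 * k * ((d * b - c) / b) *
      (Real.log (d * b - c) / Real.log b)⁻¹) atTop (𝓝 (24 * k * d * (1 : ℝ)⁻¹)) :=
    (h1.const_mul _).mul ((log_ratio c hd).inv₀ one_ne_zero)
  rw [inv_one, mul_one] at h2
  have h3 := (Real.continuous_sqrt.tendsto _).comp h2
  refine h3.congr' ?_
  filter_upwards [eventually_gt_atTop (1 : ℝ), (lin_atTop c hd).eventually_gt_atTop 1] with b hb hb2
  have hb0 : 0 < b := by linarith
  have hl : 0 < Real.log b := Real.log_pos hb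
  have hl2 : 0 < Real.log (d * b - c) := Real.log_pos hb2
  rw [Function.comp_apply, ← Real.sqrt_div' _ (by positivity)]
  congr 1
  field_simp

theorem small (c : ℝ) : Tendsto (fun b : ℝ => c / √(b / Real.log b)) atTop (𝓝 0) := by
  have h1 : Tendsto (fun b : ℝ => b / Real.log b) atTop atTop := by
    have h : Tendsto (fun b : ℝ => Real.log b / b) atTop (𝓝[>] 0) := by
      refine tendsto_nhdsWithin_iff.2 ⟨?_, ?_⟩
      · have := Real.isLittleO_log_id_atTop.tendsto_div_nhds_zero
        simpa using this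
      · filter_upwards [eventually_gt_atTop (1 : ℝ)] with b hb
        have : 0 < b := by linarith
        exact div_pos (Real.log_pos hb) this
    have := h.inv_tendsto_nhdsGT_zero
    refine this.congr fun b => ?_
    rw [Pi.inv_apply, inv_div]
  exact tendsto_const_nhds.div_atTop (Real.tendsto_sqrt_atTop.comp h1)

/-- the squeeze -/
theorem squeeze {k d e : ℝ} (hk : 0 < k) (hd : 0 < d) (N : ℝ → ℝ) (loss : ℝ)
    (hup : ∀ ε : ℝ, 0 < ε → ∃ X₀ : ℝ, 1 < X₀ ∧ ∀ X : ℝ, X₀ ≤ X →
      N X ≤ Real.exp (e * X + (1 + ε) * √(24 * k * X / Real.log X)))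
    (hlo : ∀ ε : ℝ, 0 < ε → ε < 1 → ∃ X₀ : ℝ, 1 < X₀ ∧ ∀ X : ℝ, X₀ ≤ X →
      Real.exp (e * X + (1 - ε) * √(24 * k * X / Real.log X)) ≤ N (X + loss)) :
    Tendsto (fun b : ℝ => (Real.log (N (d * b)) - e * (d * b)) / √(b / Real.log b)) atTop
      (𝓝 √(24 * k * d)) := by
  set L : ℝ := √(24 * k * d) with hL
  have hL0 : 0 < L := Real.sqrt_pos.2 (by positivity)
  -- positivity of `N`
  have hlow : ∀ ε : ℝ, 0 < ε → ε < 1 → ∀ᶠ b : ℝ in atTop,
      (1 - ε) * (√(24 * k * (d * b - loss) / Real.log (d * b - loss)) / √(b / Real.log b)) +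
        (-(e * loss)) / √(b / Real.log b) ≤
        (Real.log (N (d * b)) - e * (d * b)) / √(b / Real.log b) ∧ 0 < N (d * b) := by
    intro ε h0 h1
    obtain ⟨X₀, hX₀, h⟩ := hlo ε h0 h1
    filter_upwards [eventually_gt_atTop (1 : ℝ), (lin_atTop loss hd).eventually_ge_atTop X₀]
      with b hb hb2
    have h3 := h _ hb2
    rw [sub_add_cancel] at h3
    have hpos : 0 < N (d * b) := (Real.exp_pos _).trans_le h3
    refine ⟨?_, hpos⟩
    have h4 := (Real.le_log_iff_exp_le hpos).2 h3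
    have hs : 0 < √(b / Real.log b) := Real.sqrt_pos.2 (div_pos (by linarith) (Real.log_pos hb))
    rw [← mul_div_assoc, ← add_div]
    refine div_le_div_of_nonneg_right ?_ hs.le
    linarith
  rw [tendsto_order]
  constructor
  · intro a ha
    -- choose `ε`
    obtain ⟨ε, h0, h1, h2⟩ : ∃ ε : ℝ, 0 < ε ∧ ε < 1 ∧ a < (1 - ε) * L := by
      have hc : Tendsto (fun ε : ℝ => (1 - ε) * L) (𝓝[>] 0) (𝓝 ((1 - 0) * L)) :=
        tendsto_nhdsWithin_of_tendsto_nhds
          ((tendsto_const_nhds.sub tendsto_id).mul tendsto_const_nhds)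
      rw [sub_zero, one_mul] at hc
      have h1 : ∀ᶠ ε : ℝ in 𝓝[>] 0, ε < 1 :=
        tendsto_nhdsWithin_of_tendsto_nhds tendsto_id |>.eventually_lt_const one_pos
      obtain ⟨ε, ⟨h2, h3⟩, h4⟩ :=
        ((hc.eventually_const_lt ha).and h1 |>.and self_mem_nhdsWithin).exists
      exact ⟨ε, h4, h3, h2⟩
    have h3 : Tendsto (fun b : ℝ =>
        (1 - ε) * (√(24 * k * (d * b - loss) / Real.log (d * b - loss)) / √(b / Real.log b)) +
        (-(e * loss)) / √(b / Real.log b)) atTop (𝓝 ((1 - ε) * L + 0)) :=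
      ((ratio loss hd).const_mul _).add (small _)
    rw [add_zero] at h3
    filter_upwards [h3.eventually_const_lt h2, hlow ε h0 h1] with b hb1 hb2
    exact hb1.trans_le hb2.1
  · intro a ha
    obtain ⟨ε, h0, h2⟩ : ∃ ε : ℝ, 0 < ε ∧ (1 + ε) * L < a := by
      have hc : Tendsto (fun ε : ℝ => (1 + ε) * L) (𝓝[>] 0) (𝓝 ((1 + 0) * L)) :=
        tendsto_nhdsWithin_of_tendsto_nhds
          ((tendsto_const_nhds.add tendsto_id).mul tendsto_const_nhds)
      rw [add_zero, one_mul] at hc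
      obtain ⟨ε, h2, h4⟩ := ((hc.eventually_lt_const ha).and self_mem_nhdsWithin).exists
      exact ⟨ε, h4, h2⟩
    obtain ⟨X₀, hX₀, h⟩ := hup ε h0
    have h3 : Tendsto (fun b : ℝ =>
        (1 + ε) * (√(24 * k * (d * b - 0) / Real.log (d * b - 0)) / √(b / Real.log b))) atTop
        (𝓝 ((1 + ε) * L)) := (ratio 0 hd).const_mul _
    filter_upwards [h3.eventually_lt_const h2, hlow (1 / 2) (by norm_num) (by norm_num),
      eventually_gt_atTop (1 : ℝ), (lin_atTop 0 hd).eventually_ge_atTop X₀] with b hb1 hb2 hb3 hb4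
    refine lt_of_le_of_lt ?_ hb1
    rw [sub_zero] at hb4 ⊢
    have h4 := (Real.log_le_iff_le_exp hb2.2).2 (h _ hb4)
    rw [← mul_div_assoc]
    refine div_le_div_of_nonneg_right ?_ (Real.sqrt_nonneg _)
    linarith

end Pool.Agent.N906.RS
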