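import Mathlib
import Pool.Agent.W223.AK.Point

/-!
# Project RS (helper906), MP_a793bb_nt: the exact second order term for the abc inequality over `K`

Target. Let `K` be a number field of degree `d`, `0 < κ < 1`. The number `V(B)` of the points
`P = (a : b : c)` over `K` with `a + b + c = 0`, `abc ≠ 0`, `H(P) ≤ B` and `rad(P) ≤ (3 - κ) h(P)` is
`B ^ (d (2 - κ)) * exp ((1 + o(1)) √(24 κ d log B / log log B))`.

This is the formula predicted by the model of Robert, Stewart and Tenenbaum (with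
`∑_{n ≤ x} 1 / k(n) = exp ((1 + o(1)) √(8 log x / log log x))`, de Bruijn), in the whole range of radicals
in which the exponent is known.

Notation (all from `Pool/Agent/W223/AK/Defs.lean`, `Pool/Agent/H691R3/`): `Pr K` primes, `Nv v` the norm,
`Idl K = Pr K →₀ ℕ` ideals, `len` log of the norm, `rl` log of the norm of the radical, `Cop` coprime.
A point is `x : K` with `Pt x` (`x ≠ 0, -1`), i.e. `(x : 1 : -x-1)`; `ht x = d h(P)`, forms `L l x` =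
`x, 1, x + 1`; `IsP ∅ x P` says that `P l` is the ideal of the form `l` at `x` (all primes);
`lm v l x = mt v * log (max(|x|_v, 1) / |L l x|_v)`. Product formula: `sum_lm` in `Point.lean`.
`R(x) = tr P = d rad(P)`. `3 ht x = tl P + ∑_l ∑_{w ∣ ∞} lm w l x`.
-/

set_option autoImplicit false

namespace Pool.Agent.N906.RS

open NumberField IsDedekindDomain Finset Filter Topology Pool.Agent.H691R3 Pool.Agent.W223.AK

section Defs

variable {K : Type} [Field K] [NumberField K]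

/-- pairwise coprime triples of ideals -/
def PC (E : Fin 3 → Idl K) : Prop := ∀ l l', l ≠ l' → Cop (E l) (E l')

/-- the logarithm of the norm of the product of the three ideals -/
noncomputable def tl (E : Fin 3 → Idl K) : ℝ := ∑ l, len (E l)

/-- the sum of the logarithms of the norms of the radicals -/
noncomputable def tr (E : Fin 3 → Idl K) : ℝ := ∑ l, rl (E l)

/-- the number of primes (with slots) -/
def om (E : Fin 3 → Idl K) : ℕ := ∑ l, (E l).support.card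

/-- the sum of the reciprocals of the norms of the primes -/
noncomputable def rsum (E : Fin 3 → Idl K) : ℝ := ∑ l, ∑ v ∈ (E l).support, (Nv v)⁻¹

end Defs

section Statements

variable (K : Type) [Field K] [NumberField K]

/-- PIT. The prime ideal theorem, counting all primes. From `Pool.Agent.H484R2.pit` (file
`Pool/Agent/H484R2/Pit.lean`: degree one primes) and the prime number theorem; primes of higher degree of
norm at most `n` are at most `d √n`. -/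
def S_PIT : Prop :=
  Tendsto (fun n : ℕ => (Set.ncard {v : Pr K | Nv v ≤ n} : ℝ) * Real.log n / n) atTop (𝓝 1)

/-- CNT. Trivial bounds: there are `O(Y)` primes of norm at most `Y`, and
`∑_{Nv > V} Nv ^ (-2) = O(1 / V)`. At most `d` primes of `K` lie over each prime `p`; or by S_PIT. -/
def S_CNT : Prop := ∃ C : ℝ, 0 < C ∧
  (∀ (Y : ℝ) (s : Finset (Pr K)), 1 ≤ Y → (∀ v ∈ s, Nv v ≤ Y) → (s.card : ℝ) ≤ C * Y) ∧
  (∀ (V : ℝ) (s : Finset (Pr K)), 1 ≤ V → (∀ v ∈ s, V < Nv v) → ∑ v ∈ s, ((Nv v) ^ 2)⁻¹ ≤ C / V)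

/-- EUP. Upper bound for the logarithm of the generating function. `x_v = 3 μ Nv^(θ u - 1) / (Nv^u - 1)`.
With `V = u ^ (-(1 - ε'))`: for `Nv ≤ V` use `log (1 + x_v) ≤ log (1 + C / u) ≤ C log (1/u)` and that
there are `O(V)` such `v`: total `o (1 / (u log (1/u)))`. For `Nv > V` use `log (1 + x) ≤ x` and partial
summation with S_PIT: `∑ x_v ≤ 3 μ (1 + ε') ∫_V^∞ t^(θ u - 1) / ((t^u - 1) log t) dt
= 3 μ (1 + ε') ∫_{y₁}^∞ e^(θ y) / (y (e^y - 1)) dy`, `y₁ = u log V = (1 - ε') u log (1/u)`, and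
`e^(θ y) / (e^y - 1) ≤ 1/y + C e^(-y/4)`, so the integral is at most `1 / y₁ + C log (1 / y₁) + C`.
(Partial summation without integrals: cut the `v` according to the dyadic / `(1+η)`-adic size of `Nv`;
between `T` and `(1+η) T` there are at most `(1+ε') η T / log T` primes for `T ≥ T₀`, by S_PIT.) -/
def S_EUP : Prop := ∀ μ θ ε : ℝ, 0 < μ → 0 ≤ θ → θ ≤ 1 / 2 → 0 < ε →
  ∃ u₀ : ℝ, 0 < u₀ ∧ u₀ < 1 / 2 ∧ ∀ u : ℝ, 0 < u → u < u₀ → ∀ s : Finset (Pr K),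
    ∑ v ∈ s, Real.log (1 + 3 * μ * (Nv v) ^ (θ * u - 1) / ((Nv v) ^ u - 1)) ≤
      (1 + ε) * (3 * μ) / (u * Real.log (1 / u))

/-- ELOW. Lower bound. Take for `s` the primes with `u^(-(1+ε)) ≤ Nv ≤ exp (δ / u)`, `δ` small. Here
`x_v = 3 / (Nv (Nv^u - 1))` is small, `log (1 + x_v) ≥ (1 - ε') x_v`, and `Nv^u - 1 ≤ (1 + ε') u log Nv`,
so that the sum is at least `(1 - 3 ε') (3 / u) ∑_v 1 / (Nv log Nv) ≥ (1 - 4 ε') (3/u) (1 / log V - u / δ)`,
`log V = (1 + ε) log (1/u)`, by S_PIT and partial summation. Note `1 / (1 + ε) > 1 - 2 ε + ε'`. -/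
def S_ELOW : Prop := ∀ ε : ℝ, 0 < ε → ε < 1 → ∃ u₀ : ℝ, 0 < u₀ ∧ u₀ < 1 / 2 ∧
  ∀ u : ℝ, 0 < u → u < u₀ → ∃ s : Finset (Pr K), (∀ v ∈ s, u ^ (-(1 + ε)) ≤ Nv v) ∧
    (1 - 2 * ε) * 3 / (u * Real.log (1 / u)) ≤
      ∑ v ∈ s, Real.log (1 + 3 / (Nv v * ((Nv v) ^ u - 1)))

/-- GUP. From S_EUP: all `E ∈ F` have supports in a finite set `s` and exponents at most `J`; a pairwise
coprime triple is a function on `s` with values (no prime) or (slot, exponent `j ≥ 1`), so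
`∑_E ≤ ∏_{v ∈ s} (1 + 3 μ ∑_{1 ≤ j ≤ J} Nv^(- u j - (1 - θ u)))` (expand the product, `Finset.prod_univ_sum`
or induction on `s`), and the geometric series is `≤ Nv^(θ u - 1) / (Nv^u - 1)`. -/
def S_GUP : Prop := ∀ μ θ ε : ℝ, 0 < μ → 0 ≤ θ → θ ≤ 1 / 2 → 0 < ε →
  ∃ u₀ : ℝ, 0 < u₀ ∧ u₀ < 1 / 2 ∧ ∀ u : ℝ, 0 < u → u < u₀ → ∀ F : Finset (Fin 3 → Idl K),
    (∀ E ∈ F, PC E) →
    ∑ E ∈ F, μ ^ om E * Real.exp (-(u * tl E) - (1 - θ * u) * tr E) ≤
      Real.exp ((1 + ε) * (3 * μ) / (u * Real.log (1 / u)))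

/-- GLOW. From S_ELOW: `∏_{v ∈ s} (1 + 3 ∑_{1 ≤ j ≤ J} Nv^(- u j - 1))` is the sum of
`exp (- u tl E - tr E)` over the pairwise coprime `E` supported on `s` with exponents at most `J`; it tends
for `J → ∞` to `∏ (1 + 3 / (Nv (Nv^u - 1)))`, so it is at least half of this for large `J`; the factor
`1/2` is absorbed by `3 ε` instead of `2 ε`. -/
def S_GLOW : Prop := ∀ ε : ℝ, 0 < ε → ε < 1 / 3 → ∃ u₀ : ℝ, 0 < u₀ ∧ u₀ < 1 / 2 ∧
  ∀ u : ℝ, 0 < u → u < u₀ → ∃ F : Finset (Fin 3 → Idl K),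
    (∀ E ∈ F, PC E ∧ ∀ l, ∀ v ∈ (E l).support, u ^ (-(1 + ε)) ≤ Nv v) ∧
    Real.exp ((1 - 3 * ε) * 3 / (u * Real.log (1 / u))) ≤
      ∑ E ∈ F, Real.exp (-(u * tl E) - tr E)

/-- WIN. From S_GUP and S_GLOW. Let `G = 3 / (u log (1/u))`, where `u` is chosen (intermediate value
theorem, or explicitly `u = √(6 / ((1 - ε₁) Z log Z))` up to a factor `1 + o(1)`) such that
`G / u ~ (1 - ε₁) Z`; then `log (1/u) ~ (log Z) / 2`, `u Z ~ √(6 Z / log Z) / √(1 - ε₁)` and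
`G ~ √(1 - ε₁) √(6 Z / log Z)`. Take `F₀` from S_GLOW (with a small `ε₂`), of total weight
`≥ exp ((1 - 3 ε₂) G)` for the weights `exp (- u tl E - tr E)`. Remove from it
(1) the `E` with `tl E > Z`: their weight is at most `exp (- τ u Z)` times the sum of
`exp (- (1 - τ) u tl E - tr E) ≤ exp ((1 + ε₂) G / (1 - τ))` (S_GUP at `(1 - τ) u`, `μ = 1`, `θ = 0`), and
`- τ / (1 - ε₁) + 1 / (1 - τ) < 1` for `0 < τ < ε₁`;
(2) the `E` with `tl E < (1 - 2 ε₁) Z`: weight at most `exp (τ u (1 - 2 ε₁) Z) exp ((1 + ε₂) G / (1 + τ))`,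
and `τ (1 - 2 ε₁) / (1 - ε₁) + 1 / (1 + τ) < 1` for small `τ > 0`;
(3) the `E` with `tr E > ε Z`: weight at most `exp (- u ε Z / 2) ∑ exp (- u tl E - (1 - u / 2) tr E)
≤ exp (- u ε Z / 2 + (1 + ε₂) G)` (S_GUP with `θ = 1 / 2`); `u Z ≥ G`;
(4) the `E` with `om E > 1 / u`: weight at most `2 ^ (- 1/u) exp ((1 + ε₂) 2 G)` (S_GUP with `μ = 2`),
and `G = o(1/u)`.
The rest `F` has weight at least `exp ((1 - 3 ε₂) G) / 2`, and there
`exp (- tr E) = exp (u tl E) exp (- u tl E - tr E) ≥ exp (u (1 - 2 ε₁) Z) (...)`, so that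
`∑_F exp (- tr E) ≥ exp ((1 - 3 ε₂) G + (1 - 2 ε₁) u Z) / 2 ≥ exp ((1 - ε) √(24 Z / log Z))`, as
`√24 = 2 √6`. Finally the primes of `E` have norm at least `u ^ (-(1 + ε₂)) > √Z` and
`rsum E ≤ om E u ^ (1 + ε₂) ≤ u ^ ε₂ ≤ c`. -/
def S_WIN : Prop := ∀ ε c : ℝ, 0 < ε → ε < 1 → 0 < c → ∃ Z₀ : ℝ, 1 < Z₀ ∧ ∀ Z : ℝ, Z₀ ≤ Z →
  ∃ F : Finset (Fin 3 → Idl K),
    (∀ E ∈ F, PC E ∧ tl E ≤ Z ∧ tr E ≤ ε * Z ∧ rsum E ≤ c ∧
      ∀ l, ∀ v ∈ (E l).support, √Z < Nv v) ∧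
    Real.exp ((1 - ε) * √(24 * Z / Real.log Z)) ≤ ∑ E ∈ F, Real.exp (-tr E)

/-- CELL (gap principle). Points with `ht x ≤ X`, with ideals divisible by `D l`, and close to the zero of
the form `τ w` at the infinite places `w`. Proof. (a) For `x ≠ y` in `F`, by the product formula,
`∑_v mt v log (|x - y|_v / (M_v(x) M_v(y))) = - ht x - ht y`, `M_v(x) = max(|x|_v, 1)`. At a finite `v`
the quotient is at most `Nv ^ (- D l v)` for each `l` (as `(x - y)` is, up to sign,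
`L l x * M - L l y * M'` with `M, M' ∈ {x, y, 1}`: for `l = 0, 2` `x - y = L l x - L l y`, for `l = 1`
`x - y = x * 1 - y * 1`, with `1 / M_v(x) = |L 1 x| / M_v(x) ≤ Nv^(-P 1 v)`), and at most one `D l v` is
nonzero (`IsP.cop`); so
`∏_{w ∣ ∞} (|x - y|_w / (M_w(x) M_w(y))) ^ mt w ≥ exp (tl D - 2 X)`.
(b) At `w` the points have `|L l x|_w ≤ e^(- s w / mt w) M_w(x)`, `l = τ w`. In the chart
`z = x`, `1/x`, `(x+1)/x` resp. (or a chart in which the zero of `L l` is `0`; near it and away from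
it) they lie in a disc of radius `≤ C e^(- s w / mt w)` in `ℝ` resp. `ℂ`, which can be covered by
`(C / λ) ^ mt w` cells of diameter `λ e^(- s w / mt w)`, `0 < λ ≤ 1`, in which the quotients are
`≤ C λ e^(- s w / mt w)`. (c) If `x ≠ y` lie in the same cell for all `w` then
`C λ ^ d exp (- ∑ s w) ≥ exp (tl D - 2 X)`; choose `λ ^ d` slightly smaller than
`C⁻¹ exp (tl D + ∑ s w - 2 X)`, or `λ = 1` if this is `> 1`. Tools: `chart_count_pow`, `sum_mu` in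
`Pool/Agent/H691R3/PlaceK.lean`, `product_formula`, `ht_eq` in `W223/AK/Basic.lean`. -/
def S_CELL : Prop := ∃ C : ℝ, 0 < C ∧ ∀ (X : ℝ) (D : Fin 3 → Idl K) (τ : InfinitePlace K → Fin 3)
    (s : InfinitePlace K → ℝ) (F : Finset K), 0 ≤ X → (∀ w, 0 ≤ s w) →
    (∀ x ∈ F, Pt x ∧ ht x ≤ X ∧ (∀ w, s w ≤ lm (Sum.inl w) (τ w) x) ∧
      ∃ P : Fin 3 → Idl K, IsP ∅ x P ∧ ∀ l, D l ≤ P l) →
    (F.card : ℝ) ≤ C * (Real.exp (2 * X - tl D - ∑ w, s w) + 1)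

/-- COSET. Elements of a coset of an ideal in an annulus. Proof: by Minkowski (Mathlib:
`NumberField.exists_ne_zero_mem_ideal_of_norm_le`, or the convex body theorem
`NumberField.mixedEmbedding.exists_ne_zero_mem_ideal_lt`) `𝔞` has an element `α ≠ 0` with all
`|α|_w ≤ C N(𝔞)^(1/d)`, so (with an integral basis times `α`) every element `z` of
`K ⊗ ℝ = ∏_w K_w` is within `C' N(𝔞)^(1/d)` (at all `w`) of an element of the coset `t + 𝔞`. Put
`≥ c (R^d / N 𝔞)` disjoint boxes of this radius into the annulus `R/2 ≤ |z|_w ≤ R`. -/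
def S_COSET : Prop := ∃ c : ℝ, 0 < c ∧ ∀ (R : ℝ) (𝔞 : Ideal (𝓞 K)) (t : 𝓞 K), 1 ≤ R → 𝔞 ≠ ⊥ →
    (Ideal.absNorm 𝔞 : ℝ) ≤ c * R ^ Module.finrank ℚ K →
    ∃ F : Finset (𝓞 K), (∀ a ∈ F, a - t ∈ 𝔞 ∧ ∀ w : InfinitePlace K, R / 2 ≤ w a ∧ w a ≤ R) ∧
      c * (R ^ Module.finrank ℚ K / Ideal.absNorm 𝔞) ≤ F.card

/-- LOW. Many points whose ideals are divisible by `D l`. From S_CELL (with `s = 0`), S_COSET, S_CNT and
the bound `O(Y)` for the number of ideals of norm at most `Y` (library or Mathlib). Proof. If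
`tl D > X - C₁` there is nothing to show (for large `C`). `R = exp (X / d)`. Take `b ∈ D 1` in the
annulus, and `a ≡ 0 mod D 0`, `a ≡ - b mod D 2` (a coset of `D 0 * D 2`, Chinese remainder theorem) in
the annulus, `a ≠ - b`: at least `c² exp (2 X - tl D) - C exp X` pairs `(a, b)`. `x = a / b`,
`𝔤 = (a, b)`, `ht x ≤ X - log N 𝔤`, the ideals `P l` are `(a)/𝔤`, `(b)/𝔤`, `(a+b)/𝔤`.
For given `𝔤` and `x` there are at most `W` pairs (units with `1/2 ≤ |ε|_w ≤ 2`), so by S_CELL at most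
`W C (exp (2 X - 2 log N 𝔤 - tl D + m(𝔤)) + 1)` pairs have the gcd `𝔤`, where
`m(𝔤) = ∑_l ∑_v min (𝔤 v) (D l v) log Nv` (`P l ≥ D l - 𝔤`, truncated subtraction). Call `𝔤` bad if it is not
coprime to `D` or `N 𝔤 > z`. `exp (- 2 log N 𝔤 + m(𝔤)) ≤ ∏_{v ∣ D} Nv^(- 𝔤 v) ∏_{v ∤ D} Nv^(- 2 𝔤 v)`; the sum of this
over all `𝔤` divisible by a prime dividing `D` is `≤ rsum D exp (2 rsum D) ζ_K(2)`, the sum over the
`𝔤` coprime to `D` of norm `> z` is small for large `z`, and `N 𝔤 ≤ exp X`, so that the terms `+ 1`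
give `O(exp X)`. So for `rsum D ≤ c₁` at least half of the pairs have a good `𝔤`; then `D l ≤ P l`, and each
`x` comes from at most `W * #{𝔤 : N 𝔤 ≤ z}` good pairs. -/
def S_LOW : Prop := ∃ c₁ c C : ℝ, 0 < c₁ ∧ 0 < c ∧ 0 < C ∧ ∀ (X : ℝ) (D : Fin 3 → Idl K), 0 ≤ X →
    PC D → rsum D ≤ c₁ → ∃ F : Finset K,
      (∀ x ∈ F, Pt x ∧ ht x ≤ X ∧ ∃ P : Fin 3 → Idl K, IsP ∅ x P ∧ ∀ l, D l ≤ P l) ∧
      c * Real.exp (2 * X - tl D) - C * Real.exp X ≤ F.card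

/-- BIG. The known exponent (`Pool.Agent.R365.AK.main3`). -/
def S_BIG : Prop := ∀ lam δ : ℝ, 2 < lam → lam ≤ 3 → 0 < δ → ∃ D : ℝ, 0 < D ∧
    ∀ (X : ℝ) (F : Finset K), 0 ≤ X →
      (∀ x ∈ F, Pt x ∧ ht x ≤ X ∧ ∃ P : Fin 3 → Idl K, IsP ∅ x P ∧ tr P ≤ lam * ht x) →
      (F.card : ℝ) ≤ D * Real.exp ((lam - 1 + δ) * X)

/-- UP. The upper bound (with a constant `C₀`, for comparing heights), from S_CELL, S_GUP, S_BIG. The
constants `C, C'` below may depend on `C₀`. Proof. It is enough to bound the number of `x ∈ F`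
with `m - 1 < ht x ≤ m` by `exp ((2 - κ) m + (1 + ε/2) √(24 κ m / log m))` for the integers `m₀ ≤ m ≤ X + 1`
(with the trivial bound `C exp (2 m₀)`, S_CELL with `D = 0`, for the rest; the function is increasing).
Fix `m`. By S_BIG with `lam = 3 - κ - δ₀` (`κ + δ₀ < 1`) those with `tr P ≤ (3 - κ - δ₀) ht x` are
negligible. For the others let `E l v = P l v - 1` (truncated subtraction), so that
`∑_l (len (P l) - rl (P l)) = tl E`, `D l v = E l v + 1` if `E l v > 0` and `0` otherwise,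
`tl D = tl E + tr E ≤ 2 tl E`, `D l ≤ P l`. By `sum_lm` (with `S = ∅`)
`3 ht x = tl P + ∑_l ∑_w lm w l x`. Let `τ w` be a form with the largest `lm w l x` (it is `≥ 0` for
one of `l = 0, 1`); the two others are at most `C`. Let `k w = ⌊lm w (τ w) x⌋₊`. Then
`tl E + ∑ k w ≥ κ ht x - C₀ - C ≥ κ m - C'` and `tl E + ∑ k w ≤ (κ + δ₀) m + C`; hence
`tl D + ∑ k w ≤ 2 (κ + δ₀) m + C ≤ 2 m + C`, and by S_CELL the number of `x` with given `E, τ, k` is at most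
`C exp (2 m - tl E - tr E - ∑ k w)`. Sum over `E`: `exp (- tl E) ≤ exp (- (1 - u) (κ m - C' - ∑ k w))
exp (- u tl E)`, and S_GUP (`μ = 1`, `θ = 0`) gives the bound
`C 3^r ∑_k exp (2 m - ∑ k w - (1 - u) (κ m - C' - ∑ k w)) exp ((1 + ε') 3 / (u log (1/u)))
≤ C'' u^(-r) exp ((2 - κ) m + u κ m + (1 + ε') 3 / (u log (1/u)))`; choose `u = √(6 / (κ m log m))`, so
`u κ m = √(6 κ m / log m)`, `3 / (u log (1/u)) ~ 6 / (u log m) = √(6 κ m / log m)`, and
`2 √6 = √24`. -/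
def S_UP : Prop := ∀ κ ε C₀ : ℝ, 0 < κ → κ < 1 → 0 < ε → 0 ≤ C₀ → ∃ X₀ : ℝ, 1 < X₀ ∧
    ∀ (X : ℝ) (F : Finset K), X₀ ≤ X →
      (∀ x ∈ F, Pt x ∧ ht x ≤ X ∧
        ∃ P : Fin 3 → Idl K, IsP ∅ x P ∧ tr P ≤ (3 - κ) * ht x + C₀) →
      (F.card : ℝ) ≤ Real.exp ((2 - κ) * X + (1 + ε) * √(24 * κ * X / Real.log X))

/-- LO. The lower bound, from S_CELL, S_LOW, S_WIN, S_CNT. Proof. Fix a prime `q` of `K` with
`1 / Nv q ≤ c₁ / 2` (`c₁` of S_LOW). `T = κ X + 3 d log 2` (so that `tl P - tr P ≥ T` implies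
`tr P ≤ (3 - κ) ht x`, by `sum_lm` and `lm_ge`), `Z = T - 2 log Nv q`, `F` from S_WIN (with a small
`ε'`, and a small `c ≤ c₁ / 2`). For `E ∈ F` let `j ≥ 1` be minimal with `tl E + j log Nv q ≥ T`, so
`tl E + j log Nv q ≤ T + log Nv q`; `D l v = E l v + 1` on the support of `E l`, and
`D 0 q = j + 1`. `tl D = tl E + tr E + (j + 1) log Nv q ≤ T + tr E + 2 log Nv q`, `rsum D ≤ c₁`. S_LOW: at
least `c exp (2 X - tl D) - C exp X` points `x` with `ht x ≤ X`, `D l ≤ P l`. By S_CELL (with `s = 0`) those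
with `P l v ≥ D l v + 1` for some `v` in the support of `E l` are at most
`∑ C (exp (2 X - tl D) / Nv + 1) ≤ C rsum E exp (2 X - tl D) + C om E`, and those with `P l v ≥ 2` for
some `v` with `Nv v > √Z` outside of the supports are at most `3 C ∑_{Nv > √Z} exp (2 X - tl D) / Nv²`
`+ 3 C #{v : Nv v ≤ exp ((X + C)/2)}` (as `2 log Nv v ≤ len (P l) ≤ ht x + C`), which is
`≤ C' exp (2 X - tl D) / √Z + C' exp X`. So `≥ (c/2) exp (2 X - tl D) - C'' exp X ≥ (c/4) exp (2 X - tl D)`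
points remain (`tl D ≤ (κ + ε') X + C < X - C`), and for them `E l v = P l v - 1` (truncated) for all `v`
with `Nv v > √Z`: the sets of these points for different `E ∈ F` are disjoint. Total:
`≥ (c/4) ∑_E exp (2 X - T - tr E - C) ≥ c' exp ((2 - κ) X) exp ((1 - ε') √(24 Z / log Z))`. -/
def S_LO : Prop := ∀ κ ε : ℝ, 0 < κ → κ < 1 → 0 < ε → ε < 1 → ∃ X₀ : ℝ, 1 < X₀ ∧
    ∀ X : ℝ, X₀ ≤ X → ∃ F : Finset K,
      (∀ x ∈ F, Pt x ∧ ht x ≤ X ∧ ∃ P : Fin 3 → Idl K, IsP ∅ x P ∧ tr P ≤ (3 - κ) * ht x) ∧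
      Real.exp ((2 - κ) * X + (1 - ε) * √(24 * κ * X / Real.log X)) ≤ F.card

end Statements

end Pool.Agent.N906.RS
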