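import Pool.Agent.N906.RS.Stm
import Pool.Agent.R365.AK.Main

set_option autoImplicit false

namespace Pool.Agent.N906.RS

open NumberField IsDedekindDomain Finset Pool.Agent.H691R3 Pool.Agent.W223.AK

/-- the known exponent -/
theorem big (K : Type) [Field K] [NumberField K] : S_BIG K := by
  intro lam δ h1 h2 hδ
  obtain ⟨D, hD, h⟩ := Pool.Agent.R365.AK.main3 K lam (by linarith) h2 ∅ 0 δ hδ
  have he : Pool.Agent.R365.AK.eK lam = lam - 1 := by
    unfold Pool.Agent.R365.AK.eK
    split_ifs <;> linarith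
  rw [he] at h
  refine ⟨D, hD, fun X F hX hF => h X F hX fun x hx => ?_⟩
  obtain ⟨hp, hX', P, hP, hr⟩ := hF x hx
  refine ⟨hp, hX', P, hP, ?_⟩
  unfold tr at hr
  rw [Fin.sum_univ_three] at hr
  linarith

end Pool.Agent.N906.RS
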