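import Mathlib
import Pool.Agent.N906.RS.Stm
import Pool.Agent.N906.RS.Big
import Pool.Agent.N134.RS_PIT
import Pool.Agent.N803.RS_CNT
import Pool.Agent.N163.RS_EUP
import Pool.Agent.N42.RS_ELOW
import Pool.Agent.N49.RS_GUP
import Pool.Agent.N438.RS_GLOW
import Pool.Agent.N34.RS_WIN
import Pool.Agent.N711.RS_CELL
import Pool.Agent.N691.RS_COSET
import Pool.Agent.N403.RS_LOW
import Pool.Agent.N776.RS_UP
import Pool.Agent.N427.RS_LO

/-!
# Project RS: the parts put together
-/

set_option autoImplicit false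

namespace Pool.Agent.N906.RS

open NumberField

variable (K : Type) [Field K] [NumberField K]

theorem pit_all : S_PIT K := Pool.Agent.N134.RS.pit K
theorem cnt_all : S_CNT K := Pool.Agent.N803.RS.cnt K
theorem cell_all : S_CELL K := Pool.Agent.N711.RS.cell K
theorem gup_all : S_GUP K :=
  Pool.Agent.N49.RS.gup K (Pool.Agent.N163.RS.eup K (pit_all K) (cnt_all K))
theorem glow_all : S_GLOW K :=
  Pool.Agent.N438.RS.glow K (Pool.Agent.N42.RS.elow K (pit_all K))
theorem win_all : S_WIN K := Pool.Agent.N34.RS.win K (gup_all K) (glow_all K)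
theorem low_all : S_LOW K :=
  Pool.Agent.N403.RS.low K (cell_all K) (Pool.Agent.N691.RS.coset K) (cnt_all K)
theorem up_all : S_UP K := Pool.Agent.N776.RS.up K (cell_all K) (gup_all K) (big K)
theorem lo_all : S_LO K :=
  Pool.Agent.N427.RS.lo K (cell_all K) (low_all K) (win_all K) (cnt_all K)

end Pool.Agent.N906.RS
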