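import Pool.Agent.N906.RS.Stm
import Pool.Agent.W223.AK.Final

set_option autoImplicit false

/-!
# The final assembly: from `S_UP` and `S_LO` to the limit in terms of points of the projective plane
-/

namespace Pool.Agent.N906.RS

open NumberField IsDedekindDomain Finset Filter Topology Pool.Agent.H691R3 Pool.Agent.W223.AK

section Affine

variable {K : Type} [Field K] [NumberField K]

/-- the coordinates of a number -/
def w3 (y : K) : Fin 3 → K := ![y, 1, -(y + 1)]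

theorem w3_ne (y : K) : w3 y ≠ 0 := by
  intro h
  have := congrFun h 1
  exact one_ne_zero this

theorem w3_inj : Function.Injective (fun y : K => Projectivization.mk K (w3 y) (w3_ne y)) := by
  intro y y' h
  simp only at h
  rw [Projectivization.mk_eq_mk_iff'] at h
  obtain ⟨a, ha⟩ := h
  have h1 : a * 1 = (1 : K) := congrFun ha 1
  have h0 : a * y' = y := congrFun ha 0
  rw [mul_one] at h1
  rw [h1, one_mul] at h0
  exact h0.symm

/-- the set of the points with `H3 x ≤ X`, `R3 ∅ x ≤ (3 - κ) * H3 x` -/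
def VX (K : Type) [Field K] [NumberField K] (κ X : ℝ) : Set (Projectivization K (Fin 3 → K)) :=
  {P | ∃ (x : Fin 3 → K) (hx : x ≠ 0), P = Projectivization.mk K x hx ∧ x 0 + x 1 + x 2 = 0 ∧
    x 0 * x 1 * x 2 ≠ 0 ∧ H3 x ≤ X ∧ R3 ∅ x ≤ (3 - κ) * H3 x}

/-- the numbers `y` such that the point with coordinates `w3 y` is in `VX` -/
def VA (K : Type) [Field K] [NumberField K] (κ X : ℝ) : Set K :=
  {y | Projectivization.mk K (w3 y) (w3_ne y) ∈ VX K κ X}

theorem VX_eq (κ X : ℝ) :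
    VX K κ X = (fun y : K => Projectivization.mk K (w3 y) (w3_ne y)) '' VA K κ X := by
  ext P
  constructor
  · intro hP
    obtain ⟨x, hx, rfl, hs, hp, h1, h2⟩ := id hP
    have hx1 : x 1 ≠ 0 := by
      intro h
      apply hp
      rw [h]
      ring
    have he : Projectivization.mk K (w3 (x 0 / x 1)) (w3_ne _) = Projectivization.mk K x hx := by
      rw [Projectivization.mk_eq_mk_iff']
      refine ⟨(x 1)⁻¹, ?_⟩
      funext i
      fin_cases i
      · show (x 1)⁻¹ * x 0 = x 0 / x 1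
        rw [div_eq_mul_inv, mul_comm]
      · show (x 1)⁻¹ * x 1 = 1
        exact inv_mul_cancel₀ hx1
      · show (x 1)⁻¹ * x 2 = -(x 0 / x 1 + 1)
        have : x 2 = -(x 0 + x 1) := by linear_combination hs
        rw [this]
        field_simp
    refine ⟨x 0 / x 1, ?_, he⟩
    show Projectivization.mk K (w3 (x 0 / x 1)) (w3_ne _) ∈ VX K κ X
    rw [he]
    exact hP
  · rintro ⟨y, hy, rfl⟩
    exact hy

theorem VA_spec {κ X : ℝ} (hκ0 : 0 < κ) (hκ : κ < 1) {y : K} (hy : y ∈ VA K κ X) :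
    Pt y ∧ ht y ≤ X ∧ ∃ P : Fin 3 → Idl K, IsP ∅ y P ∧ tr P ≤ (3 - κ) * ht y + 3 * lossK K := by
  obtain ⟨x, hx, he, hs, hp, h1, h2⟩ := hy
  rw [Projectivization.mk_eq_mk_iff'] at he
  obtain ⟨a, ha⟩ := he
  have hx0 : x 0 ≠ 0 := fun h => hp (by rw [h]; ring)
  have hx1 : x 1 ≠ 0 := fun h => hp (by rw [h]; ring)
  have hx2 : x 2 ≠ 0 := fun h => hp (by rw [h]; ring)
  have e0 : a * x 0 = y := congrFun ha 0
  have e1 : a * x 1 = 1 := congrFun ha 1
  have hd : x 0 / x 1 = y := by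
    rw [← e0]
    have : a = (x 1)⁻¹ := eq_inv_of_mul_eq_one_left e1
    rw [this, div_eq_mul_inv, mul_comm]
  have hPt : Pt y := by
    constructor
    · rw [← hd]
      exact div_ne_zero hx0 hx1
    · rw [← hd]
      intro h
      apply hx2
      have h3 : x 0 + x 1 = 0 := by
        have h4 : (x 0 / x 1 + 1) * x 1 = 0 := by rw [h, zero_mul]
        rwa [add_mul, div_mul_cancel₀ _ hx1, one_mul] at h4
      linear_combination hs - h3
  have hb := H3_bounds hx1 hs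
  rw [hd] at hb
  obtain ⟨P, hP⟩ := exists_isP (∅ : Finset (Pr K)) hPt
  refine ⟨hPt, hb.1.trans h1, P, hP, ?_⟩
  have hP' : IsP (∅ : Finset (Pr K)) (x 0 / x 1) P := by rwa [hd]
  have hR := R3_eq (T := (∅ : Set (Pr K))) (T' := (∅ : Finset (Pr K))) (fun v => by simp) hx1 hs hP'
  have hloss : 0 ≤ lossK K := by linarith [hb.1, hb.2]
  unfold tr
  rw [Fin.sum_univ_three, ← hR]
  nlinarith [hb.2]

theorem mem_VA {κ X : ℝ} (hκ : κ < 1) {y : K} (hy : Pt y) (h1 : ht y + lossK K ≤ X)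
    {P : Fin 3 → Idl K} (hP : IsP ∅ y P) (hr : tr P ≤ (3 - κ) * ht y) : y ∈ VA K κ X := by
  have e1 : (w3 y) 1 = 1 := rfl
  have e0 : (w3 y) 0 = y := rfl
  have e2 : (w3 y) 2 = -(y + 1) := rfl
  have hs : w3 y 0 + w3 y 1 + w3 y 2 = 0 := by rw [e0, e1, e2]; ring
  have hx1 : w3 y 1 ≠ 0 := by rw [e1]; exact one_ne_zero
  have hd : w3 y 0 / w3 y 1 = y := by rw [e0, e1, div_one]
  have hb := H3_bounds hx1 hs
  rw [hd] at hb
  have hP' : IsP (∅ : Finset (Pr K)) (w3 y 0 / w3 y 1) P := by rwa [hd]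
  have hR := R3_eq (T := (∅ : Set (Pr K))) (T' := (∅ : Finset (Pr K))) (fun v => by simp) hx1 hs hP'
  refine ⟨w3 y, w3_ne y, rfl, hs, ?_, hb.2.trans h1, ?_⟩
  · rw [e0, e1, e2]
    exact mul_ne_zero (mul_ne_zero hy.1 one_ne_zero) (neg_ne_zero.mpr hy.2)
  · rw [hR]
    unfold tr at hr
    rw [Fin.sum_univ_three] at hr
    nlinarith [hb.1]

end Affine

section Count

variable (K : Type) [Field K] [NumberField K]

theorem card_up (h : S_UP K) {κ ε : ℝ} (h0 : 0 < κ) (h1 : κ < 1) (hε : 0 < ε) :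
    ∃ X₀ : ℝ, 1 < X₀ ∧ ∀ X : ℝ, X₀ ≤ X → (VX K κ X).Finite ∧
      ((VX K κ X).ncard : ℝ) ≤ Real.exp ((2 - κ) * X + (1 + ε) * √(24 * κ * X / Real.log X)) := by
  have hloss : 0 ≤ lossK K := by
    have hb := H3_bounds (K := K) (x := w3 (1 : K)) (by show (1 : K) ≠ 0; exact one_ne_zero)
      (by show (1 : K) + 1 + -(1 + 1) = 0; ring)
    linarith [hb.1, hb.2]
  obtain ⟨X₀, hX₀, hU⟩ := h κ ε (3 * lossK K) h0 h1 hε (by linarith)
  refine ⟨X₀, hX₀, fun X hX => ?_⟩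
  set R : ℝ := Real.exp ((2 - κ) * X + (1 + ε) * √(24 * κ * X / Real.log X)) with hR
  have hF : ∀ F : Finset K, (F : Set K) ⊆ VA K κ X → (F.card : ℝ) ≤ R := fun F hF =>
    hU X F hX fun x hx => VA_spec h0 h1 (hF (Finset.mem_coe.2 hx))
  have hfin : (VA K κ X).Finite := by
    by_contra hinf
    obtain ⟨F, hF1, hF2⟩ := Set.Infinite.exists_subset_card_eq hinf (⌊R⌋₊ + 1)
    have h3 := hF F hF1
    rw [hF2] at h3
    push_cast at h3
    linarith [Nat.lt_floor_add_one R]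
  rw [VX_eq]
  refine ⟨hfin.image _, ?_⟩
  rw [Set.ncard_image_of_injective _ w3_inj, Set.ncard_eq_toFinset_card _ hfin]
  exact hF _ (by rw [Set.Finite.coe_toFinset])

theorem card_lo (h : S_LO K) {κ ε : ℝ} (h0 : 0 < κ) (h1 : κ < 1) (hε : 0 < ε) (hε1 : ε < 1) :
    ∃ X₀ : ℝ, 1 < X₀ ∧ ∀ X : ℝ, X₀ ≤ X → (VX K κ (X + lossK K)).Finite →
      Real.exp ((2 - κ) * X + (1 - ε) * √(24 * κ * X / Real.log X)) ≤
        ((VX K κ (X + lossK K)).ncard : ℝ) := by
  obtain ⟨X₀, hX₀, hU⟩ := h κ ε h0 h1 hε hε1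
  refine ⟨X₀, hX₀, fun X hX hfin => ?_⟩
  obtain ⟨F, hF, hc⟩ := hU X hX
  refine hc.trans ?_
  have hsub : (F : Set K) ⊆ VA K κ (X + lossK K) := by
    intro y hy
    obtain ⟨hp, hX', P, hP, hr⟩ := hF y (Finset.mem_coe.1 hy)
    exact mem_VA h1 hp (by linarith) hP hr
  rw [VX_eq] at hfin ⊢
  have hfin' : (VA K κ (X + lossK K)).Finite := hfin.of_finite_image w3_inj.injOn
  rw [Set.ncard_image_of_injective _ w3_inj, ← Set.ncard_coe_finset F]
  exact_mod_cast Set.ncard_le_ncard hsub hfin'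

end Count

end Pool.Agent.N906.RS
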