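import Pool.Agent.N906.RS.Fin
import Pool.Agent.N906.RS.Asy

set_option autoImplicit false

namespace Pool.Agent.N906.RS

open NumberField IsDedekindDomain Finset Filter Topology Pool.Agent.H691R3 Pool.Agent.W223.AK

variable (K : Type) [Field K] [NumberField K]

theorem VX_mono {κ X Y : ℝ} (h : X ≤ Y) : VX K κ X ⊆ VX K κ Y := by
  rintro P ⟨x, hx, h1, h2, h3, h4, h5⟩
  exact ⟨x, hx, h1, h2, h3, h4.trans h, h5⟩

theorem VX_finite (hU : S_UP K) {κ : ℝ} (h0 : 0 < κ) (h1 : κ < 1) (X : ℝ) :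
    (VX K κ X).Finite := by
  obtain ⟨X₀, -, h⟩ := card_up K hU h0 h1 one_pos
  exact (h (max X X₀) (le_max_right _ _)).1.subset (VX_mono K (le_max_left _ _))

/-- the limit, in terms of `VX` -/
theorem limit (hU : S_UP K) (hL : S_LO K) {κ : ℝ} (h0 : 0 < κ) (h1 : κ < 1) :
    Tendsto (fun b : ℝ => (Real.log ((VX K κ ((Module.finrank ℚ K : ℝ) * b)).ncard : ℝ) -
      (2 - κ) * ((Module.finrank ℚ K : ℝ) * b)) / √(b / Real.log b)) atTop
      (𝓝 √(24 * κ * (Module.finrank ℚ K : ℝ))) := by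
  have hd : (0 : ℝ) < Module.finrank ℚ K := by
    exact_mod_cast (Module.finrank_pos (R := ℚ) (M := K))
  refine squeeze h0 hd (fun X => ((VX K κ X).ncard : ℝ)) (lossK K) ?_ ?_
  · intro ε hε
    obtain ⟨X₀, hX₀, h⟩ := card_up K hU h0 h1 hε
    exact ⟨X₀, hX₀, fun X hX => (h X hX).2⟩
  · intro ε hε hε1
    obtain ⟨X₀, hX₀, h⟩ := card_lo K hL h0 h1 hε hε1
    exact ⟨X₀, hX₀, fun X hX => h X hX (VX_finite K hU h0 h1 _)⟩

end Pool.Agent.N906.RS
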